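import Pool.Agent.MP_1246c0_nt.H12.SpecA
import Pool.Agent.MP_db5b97_nt.H21.NT2

/-! The parity along an orbit of primes is a residue symbol. -/

namespace Pool.Agent.MP_1246c0_nt.H12

open NumberField IsDedekindDomain Finset Pool.Agent.MP_db5b97_nt.H85

namespace SIGN

/-- the computation in the residue field -/
theorem core {R S : Type} [CommRing R] [CommRing S] {l : ℕ} (P : Ideal R) (hP : P.IsPrime)
    (g : R →+* R) (hg : ∀ x ∈ P, g x ∈ P) (h2 : (2 : R) ∉ P)
    (fix : ∀ x, g x - x ∈ P → ∃ m : ℤ, x - m ∈ P) (j : S →+* R) (ψ : S →+* ZMod l)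
    (hψ : ∀ x, ψ x = 0 ↔ j x ∈ P) {z : R} {a b : S} (ha : ψ a ≠ 0) (hb : ψ b ≠ 0)
    (h1 : j a - z * z * j b ∈ P) : (g z - z ∈ P → IsSquare (ψ (a * b))) ∧
      (g z + z ∈ P → ¬ IsSquare (ψ (a * b))) := by
  refine ⟨fun h => ?_, fun h ⟨r, hr⟩ => ?_⟩
  · obtain ⟨m, hm⟩ := fix z h
    have : ψ (a - m * m * b) = 0 := (hψ _).2 (by
      convert P.add_mem h1 (P.mul_mem_right ((z + m) * j b) hm) using 1
      simp only [map_sub, map_mul, map_intCast]
      ring)
    simp only [map_sub, map_mul, map_intCast] at this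
    exact ⟨m * ψ b, by rw [map_mul]; linear_combination ψ b * this⟩
  · obtain ⟨m, rfl⟩ := ZMod.intCast_surjective r
    obtain ⟨m', hm'⟩ := ZMod.intCast_surjective (ψ b)
    have e1 := (hψ (a * b - m * m)).1 (by simp only [map_sub, hr]; simp)
    have e2 := (hψ (b - m')).1 (by simp [hm'])
    simp only [map_sub, map_mul, map_intCast] at e1 e2
    have z0 : z ∉ P := fun hz => ha ((hψ a).2 (by
      convert P.add_mem h1 (P.mul_mem_right (z * j b) hz) using 1
      ring))
    have m0 : (m' : R) ∉ P := fun hz => hb ((hψ b).2 (by simpa using P.add_mem e2 hz))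
    have key : ∀ k : ℤ, z * m' - k ∉ P := fun k hk => by
      have e3 := hg _ hk
      simp only [map_sub, map_mul, map_intCast] at e3
      have e4 : 2 * (z * m') ∈ P := by
        convert P.sub_mem (P.add_mem (P.mul_mem_right (m' : R) h) hk) e3 using 1
        ring
      exact ((hP.mem_or_mem e4).resolve_left h2 |> hP.mem_or_mem).elim z0 m0
    have e5 : (z * m' - m) * (z * m' - (-m : ℤ)) ∈ P := by
      convert P.sub_mem (P.sub_mem e1 (P.mul_mem_right (j b) h1))
        (P.mul_mem_right (z * z * (j b + m')) e2) using 1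
      push_cast
      ring
    exact (hP.mem_or_mem e5).elim (key _) (key _)

variable {L : Type} [Field L] [NumberField L]

theorem val_smul (g : L ≃ₐ[ℚ] L) (w : Sp L) (x : L) :
    (g • w).valuation L (g x) = w.valuation L x := by
  by_cases h : x = 0
  · simp [h]
  · have := NT2.ord_smul L _ g w (Un.mk x h)
    exact (val_eq_exp (g • w) (g • Un.mk x h)).trans (this ▸ (val_eq_exp w (Un.mk x h)).symm)

theorem cg_mul {w : Sp L} {x y x' y' : L} (h : w.valuation L (x - y) < 1)
    (h' : w.valuation L (x' - y') < 1) (hy : w.valuation L y ≤ 1) (hy' : w.valuation L y' ≤ 1) :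
    w.valuation L (x * x' - y * y') < 1 := by
  have e : x * x' - y * y' = (x - y) * (x' - y') + ((x - y) * y' + (x' - y') * y) := by ring
  rw [e]
  refine Valuation.map_add_lt _ ?_ (Valuation.map_add_lt _ ?_ ?_) <;> rw [map_mul]
  exacts [mul_lt_one_of_lt_of_le h h'.le, mul_lt_one_of_lt_of_le h hy',
    mul_lt_one_of_lt_of_le h' hy]

theorem cg_trans {w : Sp L} {x y z : L} (h : w.valuation L (x - y) < 1)
    (h' : w.valuation L (y - z) < 1) : w.valuation L (x - z) < 1 := by
  simpa using Valuation.map_add_lt _ h h'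

theorem cg_symm {w : Sp L} {x y : L} (h : w.valuation L (x - y) < 1) :
    w.valuation L (y - x) < 1 := by rwa [Valuation.map_sub_swap]

theorem val_sign (w : Sp L) (k : ℤ) : w.valuation L ((-1) ^ k) ≤ 1 := by simp

/-- the telescoping product -/
theorem tel {d : ℕ} {τ : L ≃ₐ[ℚ] L} {β : Un L} {c : Dv L 2} (h : Sgn d (τ • β - β) c) (w : Pr L 2)
    (hw : (d : 𝓞 L) ∈ w.1.asIdeal) (k : ℕ) : (τ ^ k • w).1.valuation L
      ((τ ^ k) β.val / β.val - (-1) ^ ∑ i ∈ range k, c (τ ^ (i + 1) • w)) < 1 := by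
  induction k with
  | zero => simp
  | succ k ih =>
    rw [← val_smul τ, map_sub, map_div₀, map_zpow₀, map_neg, map_one] at ih
    have h1 := h (τ ^ (k + 1) • w) (by
      change _ ∈ (τ ^ (k + 1) • w.1).asIdeal
      rwa [mem_smul_iff, smul_natCast])
    have e : (τ ^ (k + 1) • w).1 = τ • (τ ^ k • w).1 := by
      rw [pow_succ', mul_smul]
      rfl
    rw [← e] at ih
    convert cg_mul ih h1 (val_sign _ _) (val_sign _ _) using 3
    · have := (τ • β).val_ne
      rw [Un.val_sub, Un.val_smul, AlgEquiv.smul_def] at *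
      rw [pow_succ', AlgEquiv.mul_apply, div_mul_div_cancel₀ this]
    · rw [sum_range_succ, zpow_add₀ (by norm_num)]

end SIGN

open SIGN

theorem rowSIGN : OfSIGN := by
  intro _ _ hP L F _ _ _ _ d M n l e s θ σ γ j ψ w β a b c hT hl hd hn hM hψ ha hb hβ hc
  have wl : (l : 𝓞 L) ∈ w.1.asIdeal := (val_lt_one_iff _ _).1 (by
    simpa using (hψ l).1 (by simp))
  have wd : (d : 𝓞 L) ∈ w.1.asIdeal := by
    obtain ⟨k, rfl⟩ := hd
    simpa using Ideal.mul_mem_right _ _ wl
  obtain ⟨r1, -, r3⟩ := hP.ram L d M s θ σ γ hT w wd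
  obtain ⟨d1, -, d3⟩ := hP.dec L d M s θ σ γ hT l w hl hd wl
  have gw : γ ^ 2 ^ lev l • w = w := (d1 _).2 (by rw [min_eq_left hM])
  have eg : (γ ^ 2 ^ n) ^ 2 ^ (lev l - n) = γ ^ 2 ^ lev l := by
    rw [← pow_mul, ← pow_add, Nat.add_sub_cancel' hn]
  have t := tel hc w wd (2 ^ (lev l - n))
  have es : ∑ i ∈ range (2 ^ (lev l - n)), c ((γ ^ 2 ^ n) ^ (i + 1) • w) =
      ∑ i ∈ range (2 ^ (lev l - n)), c (γ ^ (i * 2 ^ n) • w) := by
    have := (sum_range_succ' (fun i => c ((γ ^ 2 ^ n) ^ i • w)) (2 ^ (lev l - n))).symm.trans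
      (sum_range_succ _ _)
    simp only [eg, gw, pow_zero, one_smul, add_left_inj] at this
    rw [this]
    simp only [← pow_mul, mul_comm]
  rw [eg, gw, es] at t
  rw [← Int.cast_sum]
  generalize ∑ i ∈ range (2 ^ (lev l - n)), c (γ ^ (i * 2 ^ n) • w) = k at t
  have gs : ∀ m : ℕ, (γ ^ m) s = s := fun m => by
    induction m with
    | zero => rfl
    | succ m ih => rw [pow_succ, AlgEquiv.mul_apply, hT.gs, ih]
  replace gs := gs (2 ^ lev l)
  generalize γ ^ 2 ^ lev l = g at *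
  have gw' : g • w.1 = w.1 := congrArg Subtype.val gw
  have sw : σ • w.1 = w.1 := congrArg Subtype.val r1
  have vg : ∀ x, w.1.valuation L (g x) = w.1.valuation L x := fun x => by
    simpa only [gw'] using val_smul g w.1 x
  have vs : ∀ x, w.1.valuation L (σ x) = w.1.valuation L x := fun x => by
    simpa only [sw] using val_smul σ w.1 x
  have s0 : s ≠ 0 := fun h => hT.sqf.ne_zero (by simpa [h] using hT.sq.symm)
  have u1 : ∀ x : 𝓞 F, ψ x ≠ 0 → w.1.valuation L (j x) = 1 := fun x hx =>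
    le_antisymm (val_le_one w.1 (RingOfIntegers.mapRingHom j x)) (not_lt.1 fun h => hx ((hψ x).2 h))
  obtain ⟨β₀, e0⟩ : ∃ β₀, β.val = β₀ * s ^ e := ⟨β.val / s ^ e, by field_simp⟩
  have e1 : β₀ * σ β₀ * j b = j a := by
    rw [Un.val_add, Un.val_smul, AlgEquiv.smul_def, e0, map_mul, map_pow, hT.ss, ← hT.sq] at hβ
    refine mul_right_cancel₀ (pow_ne_zero e (neg_ne_zero.2 (pow_ne_zero 2 s0))) ?_
    rw [← hβ, sq, ← mul_neg, mul_pow]
    ring
  have v0 : w.1.valuation L β₀ = 1 := by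
    have := congrArg (w.1.valuation L) e1
    rwa [map_mul, map_mul, vs, u1 a ha, u1 b hb, mul_one, ← sq,
      pow_eq_one_iff_of_nonneg zero_le two_ne_zero] at this
  have b0 : β₀ ≠ 0 := fun h => by simp [h] at v0
  obtain ⟨z, hz⟩ := w.1.exists_valuation_sub_lt_of_integer v0.le 1
  replace hz : w.1.valuation L (z - β₀) < 1 := hz
  have vz := val_le_one w.1 z
  have c1 : w.1.valuation L (σ β₀ - z) < 1 :=
    cg_trans (y := σ z) (by rw [← map_sub, vs]; exact cg_symm hz) ((val_lt_one_iff _ _).2 (r3 z))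
  have c2 := cg_mul (cg_mul (cg_symm hz) c1 vz vz) (x' := j b) (y' := j b) (by simp)
    (by simpa using mul_le_one' vz vz) (u1 b hb).le
  have c3 : w.1.valuation L (g z - (-1) ^ k * z) < 1 := by
    refine cg_trans (y := g β₀) (by rw [← map_sub, vg]; exact hz) ?_
    convert cg_mul t (cg_symm hz) (val_sign _ _) vz using 3
    rw [e0, map_mul, map_pow, gs]
    field_simp
  rw [e1] at c2
  obtain ⟨p, q⟩ := core w.1.asIdeal w.1.isPrime (MulSemiringAction.toRingHom _ (𝓞 L) g)
    (fun x hx => (val_lt_one_iff _ _).1 ((vg x).trans_lt ((val_lt_one_iff _ _).2 hx)))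
    (by simpa using w.2) d3 (RingOfIntegers.mapRingHom j) ψ
    (fun x => (hψ x).trans (val_lt_one_iff w.1 (RingOfIntegers.mapRingHom j x))) (z := z) ha hb
    ((val_lt_one_iff _ _).1 c2)
  rcases Int.even_or_odd k with h | h
  · rw [h.neg_one_zpow, one_mul] at c3
    rw [h.intCast_zmod_two, qr, if_pos (p ((val_lt_one_iff _ _).1 c3))]
  · rw [h.neg_one_zpow, neg_one_mul, sub_neg_eq_add] at c3
    rw [h.intCast_zmod_two, qr, if_neg (q ((val_lt_one_iff _ _).1 c3))]

end Pool.Agent.MP_1246c0_nt.H12
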