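import Pool.Agent.MP_1246c0_nt.H25.SpecA

/-! Unbounded class numbers give cocycles of large order. -/

namespace Pool.Agent.MP_1246c0_nt.H25

open NumberField IsDedekindDomain Pool.Agent.MP_db5b97_nt.H85
open Pool.Agent.MP_1246c0_nt.H12

namespace CHR

theorem op_of (z : Ax0) (d : ℤ) (n : ℕ) (H : Subgroup Ga)
    (hH : ∀ h, h ∈ H ↔ chi d h = 0 ∧ kap n h = 0) : Op H := by
  obtain ⟨U, hU, hU'⟩ := z.cop d
  obtain ⟨V, hV, hV'⟩ := z.kop n
  obtain ⟨-, ho, hp⟩ := z.opi U V hU hV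
  have hle : U ⊓ V ≤ H := fun u hu => (hH u).2 ⟨hU' u hu.1, hV' u hu.2⟩
  have c1 : chi d 1 = 0 := by simpa using z.cmul d 1 1
  have k1 : kap n 1 = 0 := by simpa using z.kmul n 1 1
  refine ⟨⟨fun h hh g => ?_⟩, Subgroup.isOpen_mono hle ho, fun h => (hp h).imp fun k hk => hle hk⟩
  rw [hH] at hh ⊢
  constructor
  · rw [z.cmul, z.cmul, hh.1, add_zero, ← z.cmul, mul_inv_cancel, c1]
  · rw [z.kmul, z.kmul, hh.2, add_zero, ← z.kmul, mul_inv_cancel, k1]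

theorem op_fin (z : Ax0) {ι : Type} (U : ι → Subgroup Ga) (hU : ∀ i, Op (U i)) (s : Finset ι) :
    ∃ V, Op V ∧ ∀ i ∈ s, V ≤ U i := by
  classical
  induction s using Finset.induction_on with
  | empty => exact ⟨⊤, z.opt, by simp⟩
  | insert i s _ ih =>
    obtain ⟨V, hV, hV'⟩ := ih
    refine ⟨U i ⊓ V, z.opi _ _ (hU i) hV, fun j hj => ?_⟩
    rcases Finset.mem_insert.1 hj with rfl | hj
    · exact inf_le_left
    · exact inf_le_right.trans (hV' j hj)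

theorem hm_pi (z : Ax0) {H : Subgroup Ga} (hH : Op H) {ι B : Type} [Fintype ι] [AddCommGroup B]
    (ψ : ι → Ga → B) (h : ∀ i, Hm H (ψ i)) : Hm H fun g i => ψ i g where
  add g hg g' hg' := funext fun i => (h i).add g hg g' hg'
  opn := by
    choose U hU using fun i => (h i).opn
    obtain ⟨V, hV, hV'⟩ := op_fin z U (fun i => (hU i).1) Finset.univ
    exact ⟨H ⊓ V, z.opi _ _ hH hV, inf_le_left,
      fun u hu => funext fun i => (hU i).2.2 u (hV' i (Finset.mem_univ i) hu.2)⟩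
  unr Q hQ g hg hi := funext fun i => (h i).unr Q hQ g hg hi
  two Q hQ h2 g hg hd := funext fun i => (h i).two Q hQ h2 g hg hd

theorem two_cases (c : ZMod (2 ^ 1)) : c = 0 ∨ c = 1 := by
  revert c
  decide

theorem count {ι : Type} [Fintype ι] (H : Subgroup Ga) (Ψ : Ga → ι → ZMod (2 ^ 1))
    (hadd : ∀ h ∈ H, ∀ h' ∈ H, Ψ (h * h') = Ψ h + Ψ h')
    (hinj : ∀ i j, (∀ h ∈ H, Ψ h i = Ψ h j) → i = j) : Fintype.card ι ≤ (Ψ '' H).ncard := by
  classical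
  have : Fact (Nat.Prime (2 ^ 1)) := ⟨by norm_num⟩
  have h0 : Ψ 1 = 0 := by simpa using hadd 1 H.one_mem 1 H.one_mem
  let G : Submodule (ZMod (2 ^ 1)) (ι → ZMod (2 ^ 1)) :=
    { carrier := Ψ '' H
      zero_mem' := ⟨1, H.one_mem, h0⟩
      add_mem' := by
        rintro _ _ ⟨h, hh, rfl⟩ ⟨h', hh', rfl⟩
        exact ⟨h * h', H.mul_mem hh hh', hadd h hh h' hh'⟩
      smul_mem' := by
        intro c x hx
        rcases two_cases c with rfl | rfl
        · rw [zero_smul]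
          exact ⟨1, H.one_mem, h0⟩
        · rwa [one_smul] }
  have e : Nat.card G = Nat.card (Module.Dual (ZMod (2 ^ 1)) G) :=
    Nat.card_congr (Module.Free.chooseBasis (ZMod (2 ^ 1)) G).toDualEquiv.toEquiv
  have hf : Finite (Module.Dual (ZMod (2 ^ 1)) G) :=
    Finite.of_equiv _ (Module.Free.chooseBasis (ZMod (2 ^ 1)) G).toDualEquiv.toEquiv
  have hi : Function.Injective fun i : ι =>
      ((LinearMap.proj i).comp G.subtype : Module.Dual (ZMod (2 ^ 1)) G) := fun i j hij =>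
    hinj i j fun h hh => LinearMap.congr_fun hij ⟨Ψ h, h, hh, rfl⟩
  have h1 := Nat.card_le_card_of_injective _ hi
  rw [Nat.card_eq_fintype_card, ← e] at h1
  exact h1

end CHR

open CHR

theorem rowCHR : OfCHR := by
  intro hL hE hT hP hO hC hR hI Φ d P J hA hs ho hp h5 hd hG
  have d1 : 1 < d := lt_of_lt_of_le hp.one_lt (Nat.le_of_dvd ho.pos hd)
  obtain ⟨b, hb⟩ := hO d
  rw [Gr, not_exists] at hG
  obtain ⟨n, hn⟩ := not_forall.1 (hG ((J + 2) * (2 * (tt d + 1)) + 1 + 2 * b))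
  obtain ⟨s, θ, σ, γ, -, -, hq⟩ := hT.ex d n hs ho d1
  obtain ⟨w0, hw0, hx⟩ := hP.five _ d n s θ σ γ hq P hp h5 hd
  have hre : IsTotallyReal (kM d n) := (hT.gal _ d n s θ σ γ hq).2.2.2.2.2.2
  have hrc := hT.rcp _ d n s θ σ γ hq
  have hm := hT.mem d n
  have hop := op_of hA.z d n _ hm
  have hov : ∀ Q : Ideal OO, Q.IsMaximal → (P : OO) ∈ Q → Ov (kM d n) Q w0.1 := fun Q hQ hPQ => by
    obtain ⟨w, hw⟩ := hL.und (kM d n) Q hQ
    rwa [← (hw0 w).1 ((hw P).2 (by rwa [map_natCast]))]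
  by_contra hcon
  refine hn (hC (kM d n) w0 b _ (J + 2) (hP.card _ d n s θ σ γ hq) hx (hb _ n s θ σ γ hq)
    (fun X hX => ?_) fun χ h1 h2 D hD => ?_)
  · have hψ : ∀ χ : X, ∃ ψ : Ga → ZMod (2 ^ 1), Hm (kM d n).fixingSubgroup ψ ∧
        ∀ (Q : Ideal OO) (w : Pr (kM d n) 2), Q.IsMaximal → Ov (kM d n) Q w.1 →
          ((∀ h ∈ (kM d n).fixingSubgroup, Dc Q h → ψ h = 0) ↔
            χ.1 (Finsupp.single w 1) = 0) := fun χ => by
      by_cases hu : ∃ D, IsUnit (χ.1 D)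
      · obtain ⟨ψ, a1, -, a2⟩ := hE 1 (kM d n) χ.1 hre hrc hop (hX χ.1 χ.2).1 hu
        exact ⟨ψ, a1, a2⟩
      · refine ⟨fun _ => 0, ⟨fun _ _ _ _ => (add_zero _).symm, ⟨_, hop, le_rfl, fun _ _ => rfl⟩,
          fun _ _ _ _ _ => rfl, fun _ _ _ _ _ _ => rfl⟩, fun Q w _ _ =>
          ⟨fun _ => ?_, fun _ _ _ _ => rfl⟩⟩
        exact (two_cases _).resolve_right fun e => hu ⟨_, e ▸ isUnit_one⟩
    choose ψ hψ hψ' using hψ
    have hΨ := hm_pi hA.z hop ψ hψ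
    have h2 : ∀ y : X → ZMod (2 ^ 1), 2 • y = 0 := fun y => funext fun i => by
      rcases two_cases (y i) with e | e <;> rw [Pi.smul_apply, e] <;> rfl
    obtain ⟨M, _, _, T, ψ', a1, -, a3, a4, -, a6⟩ := hI _ Φ d P n _ _ hA hs ho hp h5 hd hm
      (fun y => ⟨1, h2 y⟩) hΨ (fun Q hQ hPQ h hh hD => funext fun χ =>
        (hψ' χ Q w0 hQ (hov Q hQ hPQ)).2 (hX χ.1 χ.2).2 h hh hD)
    obtain ⟨a7, a8⟩ := a6 h2
    have a9 := hR M Φ d P n T ψ' hA hs ho hp h5 a1 a3 a4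
    have e : Mu M 1 = ⊥ := eq_bot_iff.2 fun x hx => by
      obtain ⟨y, rfl⟩ := mem_Mu.1 hx
      exact a7 y
    rw [e, AddSubgroup.index_bot] at a9
    have hinj : ∀ χ χ' : X, (∀ h ∈ (kM d n).fixingSubgroup, ψ χ h = ψ χ' h) → χ = χ' := by
      intro χ χ' h
      refine Subtype.ext (Finsupp.addHom_ext fun w k => ?_)
      obtain ⟨Q, hQ, hQ'⟩ := hL.ovr (kM d n) w.1
      have i1 : χ.1 (Finsupp.single w 1) = 0 ↔ χ'.1 (Finsupp.single w 1) = 0 := by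
        rw [← hψ' χ Q w hQ hQ', ← hψ' χ' Q w hQ hQ']
        exact forall₂_congr fun g hg => by rw [h g hg]
      have i2 : χ.1 (Finsupp.single w 1) = χ'.1 (Finsupp.single w 1) := by
        revert i1
        generalize χ.1 (Finsupp.single w 1) = u
        generalize χ'.1 (Finsupp.single w 1) = v
        revert u v
        decide
      rw [← Finsupp.smul_single_one, map_zsmul, map_zsmul, i2]
    have hc := count (kM d n).fixingSubgroup (fun g i => ψ i g) hΨ.add hinj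
    rw [Fintype.card_coe] at hc
    refine hc.trans (a8.trans ?_)
    rw [mul_comm, pow_mul]
    exact Nat.pow_le_pow_left a9 2
  · obtain ⟨ψ, a1, ⟨h, hh, hu⟩, a2⟩ := hE (J + 2) (kM d n) χ hre hrc hop h1 ⟨D, hD⟩
    obtain ⟨M, _, _, T, ψ', b1, b2, b3, b4, b5, -⟩ := hI _ Φ d P n _ ψ hA hs ho hp h5 hd hm
      (fun y => ⟨J + 2, by rw [nsmul_eq_mul, ZMod.natCast_self, zero_mul]⟩) a1
      (fun Q hQ hPQ => (a2 Q w0 hQ (hov Q hQ hPQ)).2 h2)
    refine hcon ⟨M, _, ‹_›, n, T, ψ', b1, b2, b3, b4,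
      hR M Φ d P n T ψ' hA hs ho hp h5 b1 b3 b4, not_forall.1 fun hy => ?_⟩
    have b6 := b5 J hy h hh
    rw [nsmul_eq_mul, hu.mul_left_eq_zero, ZMod.natCast_eq_zero_iff,
      Nat.pow_dvd_pow_iff_le_right one_lt_two] at b6
    omega

end Pool.Agent.MP_1246c0_nt.H25
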