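import Pool.Agent.MP_1246c0_nt.H25.SpecR
import Pool.Agent.MP_1246c0_nt.H63.ML

/-! The number of compatible vectors, with a restricted pencil sum. -/

namespace Pool.Agent.MP_1246c0_nt.H25

open Finset
open Pool.Agent.MP_1246c0_nt.H12
open ML (f2_one f2_add f2_neg bi polar xv_add pi pi_apply pi_ne xv_eq spart lin_ne card_alt)

namespace MLO

variable {Λ ι G : Type} [CommRing Λ] [Fintype ι] [DecidableEq ι] [AddCommGroup G] [Module Λ G]

section Maps

variable (S : Matrix ι ι Λ) (c : ι → Λ) (B P O : Finset ι) (b : Bool) (u : Module.End Λ G)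

omit [Fintype ι] in
theorem rv_add (g g' : ι → G) (l : ι) :
    rvo P O b u (g + g') l = rvo P O b u g l + rvo P O b u g' l := by
  simp only [rvo, Pi.add_apply, sum_add_distrib, map_add]
  split_ifs <;> abel

/-- the defect of the system -/
def df (g : ι → G) (l : ι) : G := rvo P O b u g l - ap S (xv P b u g) l

theorem df_add (g g' : ι → G) (l : ι) :
    df S P O b u (g + g') l = df S P O b u g l + df S P O b u g' l := by
  simp only [df, rv_add, ap, xv_add, smul_add, sum_add_distrib]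
  abel

/-- the quadratic part -/
def TT (β : G →+ G →+ F2) : (ι → G) →+ (ι → G) →+ F2 :=
  bi (fun g g' => ∑ l ∈ B, β (xv P b u g l) (df S P O b u g' l))
    (fun _ _ _ => by simp only [xv_add, map_add, AddMonoidHom.add_apply, sum_add_distrib])
    (fun _ _ _ => by simp only [df_add, map_add, sum_add_distrib])

theorem TT_apply (β : G →+ G →+ F2) (g g' : ι → G) :
    TT S B P O b u β g g' = ∑ l ∈ B, β (xv P b u g l) (df S P O b u g' l) := rfl

/-- the linear part -/
def LL (μ : {l // l ∉ B} → G →+ F2) (ν : G →+ F2) : (ι → G) →+ F2 :=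
  AddMonoidHom.mk' (fun g => ∑ l, μ l (df S P O b u g l) + ν (∑ l, c l • xv P b u g l))
    fun _ _ => by
      simp only [df_add, xv_add, map_add, smul_add, sum_add_distrib]
      ring

theorem LL_apply (μ : {l // l ∉ B} → G →+ F2) (ν : G →+ F2) (g : ι → G) :
    LL S c B P O b u μ ν g = ∑ l, μ l (df S P O b u g l) + ν (∑ l, c l • xv P b u g l) := rfl

/-- the family of quadratic functions -/
def QQ (st : Λ →+* Λ) :
    Alt G st × ({l // l ∉ B} → G →+ F2) × (G →+ F2) →+ (ι → G) → F2 :=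
  AddMonoidHom.mk' (fun t g => TT S B P O b u t.1 g g + LL S c B P O b u t.2.1 t.2.2 g)
    fun _ _ => by
      funext g
      simp only [TT_apply, LL_apply, Prod.fst_add, Prod.snd_add, AddSubgroup.coe_add, Pi.add_apply,
        AddMonoidHom.add_apply, sum_add_distrib]
      ring

theorem QQ_apply (st : Λ →+* Λ) (t : Alt G st × ({l // l ∉ B} → G →+ F2) × (G →+ F2))
    (g : ι → G) : QQ S c B P O b u st t g =
      TT S B P O b u t.1 g g + LL S c B P O b u t.2.1 t.2.2 g := rfl

theorem QQ_iff (st : Λ →+* Λ) (hd : ∀ x : G, x ≠ 0 → ∃ μ : G →+ F2, μ x = 1) (g : ι → G) :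
    ((∀ β ∈ Alt G st, ∑ l ∈ B, β (xv P b u g l) (rvo P O b u g l - ap S (xv P b u g) l) = 0) ∧
      (∀ l, l ∉ B → ap S (xv P b u g) l = rvo P O b u g l) ∧ ∑ l, c l • xv P b u g l = 0) ↔
    ∀ t, QQ S c B P O b u st t g = 0 := by
  have hz : ∀ x : G, (∀ μ : G →+ F2, μ x = 0) → x = 0 := fun x h => by
    by_contra n
    obtain ⟨μ, e⟩ := hd x n
    exact zero_ne_one ((h μ).symm.trans e)
  constructor
  · rintro ⟨h1, h2, h3⟩ t
    rw [QQ_apply, TT_apply, LL_apply, h3, map_zero, add_zero, sum_eq_zero (s := univ) fun l _ => by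
      rw [df, h2 l l.2, sub_self, map_zero], add_zero]
    exact h1 _ t.1.2
  · intro h
    refine ⟨fun β hβ => ?_, fun l hl => (sub_eq_zero.1 (hz _ fun μ => ?_)).symm, hz _ fun ν => ?_⟩
    · simpa [QQ_apply, TT_apply, LL_apply, df] using h (⟨β, hβ⟩, 0, 0)
    · have := h (0, Pi.single ⟨l, hl⟩ μ, 0)
      rw [QQ_apply, TT_apply, LL_apply, Fintype.sum_eq_single ⟨l, hl⟩ fun l' n => by
        simp [Pi.single_eq_of_ne n]] at this
      simpa [df] using this
    · simpa [QQ_apply, TT_apply, LL_apply] using h (0, 0, ν)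

end Maps

variable {st : Λ →+* Λ} {au : Λ →+* F2} {S : Matrix ι ι Λ} {c : ι → Λ} {B P O J : Finset ι}
  {b : Bool} {u : Module.End Λ G}

theorem rpart (β : G →+ G →+ F2) {x x' : ι → G} (oa : Oa B P O) (sub : J ⊆ B)
    (typ : ∀ l ∈ J, l ∈ P ↔ b = false) (h : ∀ l, l ∉ J → x l = 0) (h' : ∀ l, l ∉ J → x' l = 0)
    (hs : ∑ l, x l = 0 ∨ ∑ l, x' l = 0) :
    ∑ l ∈ B, β (x l) (rvo P O b u x' l) = ∑ l ∈ J, if b = true then 0 else β (x l) (u (x' l)) := by
  rw [← sum_subset sub fun l _ n => by rw [h l n, map_zero, AddMonoidHom.zero_apply]]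
  cases b with
  | true =>
    refine sum_congr rfl fun l hl => ?_
    rw [rvo, if_neg (by simpa using (typ l hl).1), map_zero, if_pos rfl]
  | false =>
    have JP : J ⊆ P := fun l hl => (typ l hl).2 rfl
    have e : ∑ l ∈ J, β (x l) (u (∑ l' ∈ O, x' l')) = 0 := by
      rcases hs with hs | hs
      · rw [← AddMonoidHom.finsetSum_apply, ← map_sum,
          sum_subset (subset_univ J) fun l _ n => h l n, hs, map_zero, AddMonoidHom.zero_apply]
      · rcases oa.all with rfl | ha
        · simp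
        · rw [sum_subset (subset_univ O) fun l _ n => h' l fun k =>
            n (ha (mem_inter.2 ⟨JP k, sub k⟩)), hs]
          simp
    rw [← add_zero (∑ l ∈ J, ite _ _ _), ← e, ← sum_add_distrib]
    refine sum_congr rfl fun l hl => ?_
    rw [rvo, if_pos (JP hl)]
    simp

theorem polar_eq {β : G →+ G →+ F2} (hβ : β ∈ Alt G st) (sym : Sym st au S c B) {ε : F2}
    {x x' : ι → G} (oa : Oa B P O) (sub : J ⊆ B) (typ : ∀ l ∈ J, l ∈ P ↔ b = false)
    (hε : ∀ l ∈ J, au (c l) = ε)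
    (h : ∀ l, l ∉ J → x l = 0) (h' : ∀ l, l ∉ J → x' l = 0) (h1 : ∑ l, x l = 0)
    (h2 : ∑ l, c l • x l = 0) :
    TT S B P O b u β x x' + TT S B P O b u β x' x = ∑ l ∈ J, pi b u β ε (x l) (x' l) := by
  have a := rpart (u := u) β oa sub typ h h' (Or.inl h1)
  have a' := rpart (u := u) β oa sub typ h' h (Or.inr h1)
  have s := spart hβ sym sub hε h h' h2
  have e : ∑ l ∈ J, pi b u β ε (x l) (x' l) =
      (∑ l ∈ J, if b = true then 0 else β (x l) (u (x' l))) +
      (∑ l ∈ J, if b = true then 0 else β (x' l) (u (x l))) + ∑ l ∈ J, ε * β (x l) (x' l) := by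
    rw [← sum_add_distrib, ← sum_add_distrib]
    refine sum_congr rfl fun l _ => ?_
    rw [pi_apply]
    split_ifs <;> ring
  simp only [TT_apply, df, xv_eq h typ, xv_eq h' typ, map_sub, sum_sub_distrib]
  rw [e, a, a', ← s]
  linear_combination -f2_add (∑ l ∈ B, β (x l) (ap S x' l)) - f2_add (∑ l ∈ B, β (x' l) (ap S x l))

theorem LL_single (hO : O ⊆ P) (μ : {l // l ∉ B} → G →+ F2) (ν : G →+ F2) {l' : ι} (h : l' ∉ P) (w : G) :
    LL S c B P O b u μ ν (Pi.single l' w) = ∑ l, μ l (S l l' • w) + ν (c l' • w) := by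
  have z : ∀ l ∈ P, (Pi.single l' w : ι → G) l = 0 := fun l hl =>
    Pi.single_eq_of_ne (fun e : l = l' => h (e ▸ hl)) _
  have a : xv P b u (Pi.single l' w) = Pi.single l' w := by
    funext l
    rw [xv]
    split_ifs with e
    · rw [z l e.1, map_zero]
    · rfl
  have s : ∀ f : ι → Λ, ∑ l, f l • (Pi.single l' w : ι → G) l = f l' • w := fun f => by
    rw [Fintype.sum_eq_single l' fun l n => by rw [Pi.single_eq_of_ne n, smul_zero],
      Pi.single_eq_same]
  have r : ∀ l, rvo P O b u (Pi.single l' w) l = 0 := fun l => by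
    rw [rvo, sum_eq_zero fun l hl => z l (hO hl)]
    split_ifs with e <;> simp [z l, e]
  simp only [LL_apply, df, a, ap, s, r, zero_sub, map_neg, f2_neg]

end MLO

open MLO in
theorem rowMLO : OfMLO := by
  intro hQ Λ ι G _ _ _ _ _ _ _ st au τ N S c B P O J b m z γ u lr ok oa hG
  obtain ⟨hD, hd, -⟩ := hQ.dual G fun x => by rw [← two_smul Λ, lr.two, zero_smul]
  have hA := card_alt (st := st) hQ hG hD
  refine ⟨hA, ?_⟩
  have : Finite (G →+ F2) := DFunLike.finite _
  have : Finite (G →+ G →+ F2) := DFunLike.finite _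
  have key := hQ.qc (ι → G) _ (QQ S c B P O b u st) (2 ^ γ / 2 ^ (m / 2)) (by positivity) (by
    rintro ⟨β, μ, ν⟩ ne
    by_cases hβ : β = 0
    · subst hβ
      have : ∃ l' ∈ B, l' ∉ P ∧ ∃ w, ∑ l, μ l (S l l' • w) + ν (c l' • w) ≠ 0 := by
        by_contra n
        push Not at n
        obtain ⟨rfl, rfl⟩ := lin_ne hQ lr ok μ ν n
        exact ne rfl
      obtain ⟨l', -, h, w, hw⟩ := this
      rw [hQ.lin _ _ (Pi.single l' w) fun x => by
        rw [QQ_apply, QQ_apply, map_add (LL S c B P O b u _ _), LL_single oa.sub _ _ h, f2_one _ hw]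
        simp [TT_apply], abs_zero]
      positivity
    · obtain ⟨ε, hε⟩ := pi_ne b u (β := β.1) fun e => hβ (Subtype.ext e)
      have q := hQ.qb G ι (G × G) (J.filter fun l => au (c l) = ε)
        (QQ S c B P O b u st (β, μ, ν)) _
        (TT S B P O b u β.1 + (TT S B P O b u β.1).flip -
          bi (fun x x' => ∑ l ∈ J.filter fun l => au (c l) = ε, pi b u β.1 ε (x l) (x' l))
            (fun _ _ _ => by simp only [Pi.add_apply, map_add, AddMonoidHom.add_apply,
              sum_add_distrib])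
            (fun _ _ _ => by simp only [Pi.add_apply, map_add, sum_add_distrib]))
        (AddMonoidHom.mk' (fun x => (∑ l, x l, ∑ l, c l • x l)) fun _ _ => by
          simp only [Pi.add_apply, smul_add, sum_add_distrib, Prod.mk_add_mk]) hε
        (fun x x' h h' e => sub_eq_zero.2 (polar_eq β.2 ok.sym oa
          ((filter_subset _ _).trans ok.sub) (fun l hl => ok.typ l (mem_filter.1 hl).1)
          (fun l hl => (mem_filter.1 hl).2) h h' (congrArg Prod.fst e) (congrArg Prod.snd e)))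
        (fun x0 x x' _ _ => (polar _ _ x0 x x').trans (add_sub_cancel _ _).symm)
      refine abs_le_of_sq_le_sq (q.trans ?_) (by positivity)
      have p1 : (2 : ℝ) ^ (m / 2 * 2) ≤ 2 ^ (J.filter fun l => au (c l) = ε).card :=
        pow_le_pow_right₀ one_le_two ((Nat.div_mul_le_self m 2).trans (ok.cnt ε))
      rw [Nat.card_prod, hG, mul_pow, div_pow, ← pow_mul _ (m / 2), mul_comm (_ / _),
        ← mul_div_assoc]
      push_cast
      rw [← sq]
      gcongr)
  rw [Nat.card_congr (Equiv.subtypeEquivRight (QQ_iff S c B P O b u st hd))]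
  have c1 : Nat.card ι = B.card + Bᶜ.card := by
    rw [card_add_card_compl, Nat.card_eq_fintype_card]
  have c2 : Nat.card {l // l ∉ B} = Bᶜ.card := by
    rw [Nat.card_eq_fintype_card, Fintype.card_subtype]
    congr 1
    ext l
    simp
  rw [Nat.card_prod, Nat.card_prod, Nat.card_fun, Nat.card_fun, hD, c1, c2] at key
  rw [hG] at key ⊢
  have a0 : (0 : ℝ) < Nat.card (Alt G st) := by exact_mod_cast Nat.card_pos
  have a1 : (Nat.card (Alt G st) : ℝ) ≤ 2 ^ (γ * γ) := by exact_mod_cast hA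
  have a2 : ((2 : ℝ) ^ γ) ^ Bᶜ.card ≤ (2 ^ γ) ^ z :=
    pow_le_pow_right₀ (one_le_pow₀ one_le_two) ok.sml
  push_cast at key ⊢
  generalize (Nat.card {x // ∀ t, QQ S c B P O b u st t x = 0} : ℝ) = n at key ⊢
  generalize (Nat.card (Alt G st) : ℝ) = a at key a0 a1 ⊢
  have e : n * a / (2 ^ γ) ^ B.card - 1 / 2 ^ γ = (n - (2 ^ γ) ^ (B.card + Bᶜ.card) /
      (a * ((2 ^ γ) ^ Bᶜ.card * 2 ^ γ))) * (a / (2 ^ γ) ^ B.card) := by
    field_simp
    ring
  rw [e, abs_mul, abs_of_pos (show 0 < a / (2 ^ γ) ^ B.card by positivity)]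
  refine (mul_le_mul_of_nonneg_right key (by positivity)).trans ?_
  calc _ = a * ((2 ^ γ) ^ Bᶜ.card * 2 ^ γ) / 2 ^ (m / 2) := by
        field_simp
        ring
    _ ≤ 2 ^ (γ * γ) * ((2 ^ γ) ^ z * 2 ^ γ) / 2 ^ (m / 2) := by gcongr
    _ = _ := by ring

end Pool.Agent.MP_1246c0_nt.H25
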